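import Pool.Agent.H474.RZ.Stm

/-!
# Project RZ, KW: the kernel with the weight of the sliding integrals (sum over windows)
-/

set_option autoImplicit false

open Complex MeasureTheory Filter Topology
open Pool.Agent.H474.RZ

namespace Pool.Agent.H236.RZ.KW

theorem sum_one : Summable (fun j : ℤ => 3 / (1 + (j : ℝ) ^ 2)) := by
  have h1 : Summable (fun j : ℤ => 3 * (1 / (j : ℝ) ^ 2)) :=
    (Real.summable_one_div_int_pow.2 (by norm_num : 1 < 2)).mul_left 3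
  have h2 : Summable (fun j : ℤ => if j = 0 then (3 : ℝ) else 0) := (hasSum_ite_eq 0 3).summable
  refine Summable.of_nonneg_of_le (fun j => by positivity) (fun j => ?_) (h1.add h2)
  by_cases hj : j = 0
  · subst hj
    norm_num
  · rw [if_neg hj, add_zero]
    have hj2 : (0 : ℝ) < (j : ℝ) ^ 2 := by positivity
    rw [mul_one_div]
    exact div_le_div_of_nonneg_left (by norm_num) hj2 (by linarith)

theorem low (j : ℤ) (x : ℝ) (h1 : (j : ℝ) < x) (h2 : x ≤ j + 1) :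
    (1 + (j : ℝ) ^ 2) / 3 ≤ 1 + x ^ 2 := by
  rcases le_or_gt 0 j with hj | hj
  · have hj' : (0 : ℝ) ≤ j := by exact_mod_cast hj
    have h3 : (j : ℝ) ^ 2 ≤ x ^ 2 := pow_le_pow_left₀ hj' h1.le 2
    nlinarith
  · have hj' : (j : ℝ) ≤ -1 := by exact_mod_cast Int.le_sub_one_of_lt hj
    nlinarith [sq_nonneg (2 * (j : ℝ) + 3)]

theorem t_KW (hWU : S_WU) (hR : S_REP) : ∃ C : ℝ, 0 < C ∧ ∀ δ H : ℝ, 0 < δ → δ ≤ Real.pi / 8 → 1 ≤ H →
    Integrable (fun t : ℝ => ‖PhC (t + al δ * I)‖ ^ 2 / (1 + (H * t) ^ 2)) ∧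
    (∫ t : ℝ, ‖PhC (t + al δ * I)‖ ^ 2 / (1 + (H * t) ^ 2)) ≤
      C * (H⁻¹ * δ ^ (-(9 / 2) : ℝ) + δ ^ (-(17 / 4) : ℝ)) := by
  obtain ⟨C₁, hC₁, hWU⟩ := hWU
  have hS := sum_one
  have hS0 : 0 ≤ ∑' j : ℤ, 3 / (1 + (j : ℝ) ^ 2) := tsum_nonneg fun j => by positivity
  refine ⟨C₁ * ((∑' j : ℤ, 3 / (1 + (j : ℝ) ^ 2)) + 1), by positivity, fun δ H hδ hδ8 hH => ?_⟩
  have hpi := Real.pi_pos
  obtain ⟨hc, ⟨C₂, hC₂⟩, -⟩ := hR 0 δ le_rfl hδ (by linarith)
  have hH0 : 0 < H := by linarith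
  set f : ℝ → ℝ := fun t => ‖PhC (t + al δ * I)‖ ^ 2 with hf
  have hfc : Continuous f := (hc.norm).pow 2
  have hf0 : ∀ t, 0 ≤ f t := fun t => by positivity
  have hfb : ∀ t, f t ≤ C₂ ^ 2 * Real.exp (-2 * t ^ 2) := by
    intro t
    have h1 := pow_le_pow_left₀ (norm_nonneg _) (hC₂ t) 2
    rw [mul_pow, ← Real.exp_nat_mul] at h1
    have h2 : ((2 : ℕ) : ℝ) * -t ^ 2 = -2 * t ^ 2 := by push_cast; ring
    rw [h2] at h1
    exact h1
  have hfi : Integrable f := by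
    refine ((integrable_exp_neg_mul_sq (by norm_num : (0 : ℝ) < 2)).const_mul (C₂ ^ 2)).mono'
      hfc.aestronglyMeasurable (Eventually.of_forall fun t => ?_)
    rw [Real.norm_of_nonneg (hf0 t)]
    exact hfb t
  set g : ℝ → ℝ := fun t => f t / (1 + (H * t) ^ 2) with hg
  have hden : ∀ t : ℝ, 0 < 1 + (H * t) ^ 2 := fun t => by positivity
  have hgc : Continuous g := hfc.div (by fun_prop) fun t => (hden t).ne'
  have hgi : Integrable g := by
    refine hfi.mono' hgc.aestronglyMeasurable (Eventually.of_forall fun t => ?_)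
    rw [Real.norm_of_nonneg (div_nonneg (hf0 t) (hden t).le)]
    exact div_le_self (hf0 t) (by nlinarith [sq_nonneg (H * t)])
  refine ⟨hgi, ?_⟩
  set B : ℝ := H⁻¹ * δ ^ (-(9 / 2) : ℝ) + δ ^ (-(17 / 4) : ℝ) with hB
  have hB0 : 0 ≤ B := by positivity
  -- the windows
  have hη : 0 < H⁻¹ := by positivity
  have hη1 : H⁻¹ ≤ 1 := inv_le_one_of_one_le₀ hH
  have hU : ⋃ n : ℤ, Set.Ioc (n • H⁻¹) ((n + 1) • H⁻¹) = Set.univ := iUnion_Ioc_zsmul hη
  have hD : Pairwise (Function.onFun Disjoint fun n : ℤ => Set.Ioc (n • H⁻¹) ((n + 1) • H⁻¹)) :=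
    Set.pairwise_disjoint_Ioc_zsmul H⁻¹
  have hsum := hasSum_integral_iUnion (μ := volume) (f := g)
    (s := fun n : ℤ => Set.Ioc (n • H⁻¹) ((n + 1) • H⁻¹)) (fun n => measurableSet_Ioc) hD
    hgi.integrableOn
  rw [hU, setIntegral_univ] at hsum
  have hterm : ∀ n : ℤ, ∫ t in Set.Ioc (n • H⁻¹) ((n + 1) • H⁻¹), g t ≤
      3 / (1 + (n : ℝ) ^ 2) * (C₁ * B) := by
    intro n
    have e1 : n • H⁻¹ = (n : ℝ) * H⁻¹ := zsmul_eq_mul _ _
    have e2 : (n + 1) • H⁻¹ = (n : ℝ) * H⁻¹ + H⁻¹ := by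
      rw [zsmul_eq_mul]; push_cast; ring
    rw [e1, e2]
    have hle : (n : ℝ) * H⁻¹ ≤ (n : ℝ) * H⁻¹ + H⁻¹ := by linarith
    have h1 : ∫ t in Set.Ioc ((n : ℝ) * H⁻¹) ((n : ℝ) * H⁻¹ + H⁻¹), g t ≤
        ∫ t in Set.Ioc ((n : ℝ) * H⁻¹) ((n : ℝ) * H⁻¹ + H⁻¹), 3 / (1 + (n : ℝ) ^ 2) * f t := by
      refine setIntegral_mono_on hgi.integrableOn (hfi.const_mul _).integrableOn
        measurableSet_Ioc fun t ht => ?_
      have h2 : (n : ℝ) < H * t := by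
        have := mul_lt_mul_of_pos_left ht.1 hH0
        have h3 : H * ((n : ℝ) * H⁻¹) = n := by field_simp
        linarith
      have h3 : H * t ≤ n + 1 := by
        have := mul_le_mul_of_nonneg_left ht.2 hH0.le
        have h4 : H * ((n : ℝ) * H⁻¹ + H⁻¹) = n + 1 := by field_simp
        linarith
      have h4 := low n (H * t) h2 h3
      have h5 : (0 : ℝ) < 1 + (n : ℝ) ^ 2 := by positivity
      have h6 : 1 / (1 + (H * t) ^ 2) ≤ 3 / (1 + (n : ℝ) ^ 2) := by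
        rw [div_le_div_iff₀ (hden t) h5]
        linarith
      calc g t = 1 / (1 + (H * t) ^ 2) * f t := by rw [hg]; ring
        _ ≤ _ := mul_le_mul_of_nonneg_right h6 (hf0 t)
    refine h1.trans ?_
    rw [integral_const_mul]
    refine mul_le_mul_of_nonneg_left ?_ (by positivity)
    rw [← intervalIntegral.integral_of_le hle]
    exact hWU δ _ _ hδ hδ8 hη hη1
  have h1 := hasSum_le hterm hsum (hS.hasSum.mul_right (C₁ * B))
  refine h1.trans ?_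
  nlinarith [mul_nonneg hC₁.le hB0]

end Pool.Agent.H236.RZ.KW
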